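import Pool.Agent.Y290.PL.Stm

set_option autoImplicit false

open Set Topology Filter MeasureTheory
open scoped FourierTransform ENNReal ContDiff

namespace Pool.Agent.Y257.PL
open Pool.Agent.Y290.PL

lemma norm_ex (x ξ : ℝ) : ‖ex x ξ‖ = 1 := Complex.norm_exp_ofReal_mul_I _

lemma cont_ex : Continuous fun p : ℝ × ℝ => ex p.1 p.2 := by
  unfold ex; fun_prop

/-- bounded continuous functions -/
lemma bdd_bmo {g : ℝ → ℂ} (hc : Continuous g) {N : ℝ} (hN : ∀ x, ‖g x‖ ≤ N) :
    IsBMO g ∧ bmo g ≤ ENNReal.ofReal (2 * N) := by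
  have hb : bmo g ≤ ENNReal.ofReal (2 * N) := by
    refine iSup_le fun a => iSup_le fun b => iSup_le fun hab => ?_
    refine ENNReal.ofReal_le_ofReal ?_
    have hpos : 0 < b - a := sub_pos.2 hab
    have h1 : ‖avg g a b‖ ≤ N := by
      rw [avg, norm_div, Complex.norm_real, Real.norm_of_nonneg hpos.le, div_le_iff₀ hpos]
      have := intervalIntegral.norm_integral_le_of_norm_le_const (a := a) (b := b) (f := g)
        (C := N) (fun x _ => hN x)
      rwa [abs_of_pos hpos] at this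
    rw [osc, div_le_iff₀ hpos]
    have h2 := intervalIntegral.norm_integral_le_of_norm_le_const (a := a) (b := b)
      (f := fun x => ‖g x - avg g a b‖) (C := 2 * N) (fun x _ => by
        rw [norm_norm]
        calc ‖g x - avg g a b‖ ≤ ‖g x‖ + ‖avg g a b‖ := norm_sub_le _ _
          _ ≤ 2 * N := by linarith [hN x])
    rw [abs_of_pos hpos] at h2
    exact (Real.le_norm_self _).trans h2
  exact ⟨⟨hc.locallyIntegrable, hb.trans_lt ENNReal.ofReal_lt_top⟩, hb⟩

lemma cont_of {a : ℝ → ℂ} (ha : Integrable a) : Continuous fun x => ∫ ξ, a ξ * ex x ξ := by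
  refine continuous_of_dominated (bound := fun ξ => ‖a ξ‖) (fun x => ?_) (fun x => ?_) ha.norm ?_
  · refine ha.aestronglyMeasurable.mul (Continuous.aestronglyMeasurable ?_)
    unfold ex; fun_prop
  · filter_upwards with ξ
    rw [norm_mul, norm_ex, mul_one]
  · filter_upwards with ξ
    unfold ex; fun_prop

lemma norm_of {a : ℝ → ℂ} {N : ℝ} (hN : ∫ ξ, ‖a ξ‖ ≤ N) (x : ℝ) :
    ‖∫ ξ, a ξ * ex x ξ‖ ≤ N := by
  refine (norm_integral_le_integral_norm _).trans (le_trans (le_of_eq ?_) hN)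
  refine integral_congr_ae ?_
  filter_upwards with ξ
  simp [norm_ex]

/-! ### the Fourier transform of the Poisson kernel -/

noncomputable def ek (t ξ : ℝ) : ℂ := Complex.exp ((-(2 * Real.pi * t * |ξ|) : ℝ) : ℂ)

noncomputable def pk (t x : ℝ) : ℝ := t / (Real.pi * (x ^ 2 + t ^ 2))

lemma ek_int {t : ℝ} (ht : 0 < t) : Integrable (ek t) := by
  have hpi := Real.pi_pos
  have h1 : IntegrableOn (ek t) (Ioi 0) := by
    have h := integrableOn_exp_mul_complex_Ioi (a := ((-(2 * Real.pi * t) : ℝ) : ℂ))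
      (by simp only [Complex.ofReal_re]; nlinarith [mul_pos hpi ht]) 0
    refine h.congr_fun (fun x hx => ?_) measurableSet_Ioi
    simp only [ek]
    rw [abs_of_pos hx]
    congr 1
    push_cast; ring
  have h2 : IntegrableOn (ek t) (Iic 0) := by
    have h := integrableOn_exp_mul_complex_Iic (a := (((2 * Real.pi * t) : ℝ) : ℂ))
      (by simp only [Complex.ofReal_re]; nlinarith [mul_pos hpi ht]) 0
    refine h.congr_fun (fun x hx => ?_) measurableSet_Iic
    simp only [ek]
    rw [abs_of_nonpos hx]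
    congr 1
    push_cast; ring
  have h3 := h2.union h1
  rwa [Iic_union_Ioi, integrableOn_univ] at h3

lemma ek_cont (t : ℝ) : Continuous (ek t) := by
  unfold ek; fun_prop

lemma ek_fourier {t : ℝ} (ht : 0 < t) (x : ℝ) : 𝓕 (ek t) x = (pk t x : ℂ) := by
  have hpi := Real.pi_pos
  rw [Real.fourier_real_eq_integral_exp_smul]
  have hint : Integrable (fun v : ℝ => Complex.exp (↑(-2 * Real.pi * v * x) * Complex.I) • ek t v) := by
    refine Integrable.mono (ek_int ht) ?_ ?_
    · exact (Continuous.aestronglyMeasurable (by unfold ek; fun_prop))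
    · filter_upwards with v
      rw [norm_smul, Complex.norm_exp_ofReal_mul_I, one_mul]
  rw [← setIntegral_univ, ← Iic_union_Ioi (a := (0 : ℝ)),
    setIntegral_union (Iic_disjoint_Ioi le_rfl) measurableSet_Ioi hint.integrableOn
      hint.integrableOn]
  have e1 : ∫ v in Iic (0 : ℝ), Complex.exp (↑(-2 * Real.pi * v * x) * Complex.I) • ek t v =
      1 / (2 * Real.pi * (t - x * Complex.I)) := by
    have h := integral_exp_mul_complex_Iic (a := 2 * Real.pi * (t - x * Complex.I))
      (by simp; positivity) 0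
    rw [← setIntegral_congr_fun measurableSet_Iic (f := fun v : ℝ =>
      Complex.exp (2 * Real.pi * (t - x * Complex.I) * v)) (g := fun v : ℝ =>
      Complex.exp (↑(-2 * Real.pi * v * x) * Complex.I) • ek t v), h]
    · simp
    · intro v hv
      simp only [ek, smul_eq_mul]
      rw [← Complex.exp_add, abs_of_nonpos hv]
      congr 1
      push_cast; ring
  have e2 : ∫ v in Ioi (0 : ℝ), Complex.exp (↑(-2 * Real.pi * v * x) * Complex.I) • ek t v =
      1 / (2 * Real.pi * (t + x * Complex.I)) := by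
    have h := integral_exp_mul_complex_Ioi (a := -(2 * Real.pi * (t + x * Complex.I)))
      (by simp; positivity) 0
    rw [← setIntegral_congr_fun measurableSet_Ioi (f := fun v : ℝ =>
      Complex.exp (-(2 * Real.pi * (t + x * Complex.I)) * v)) (g := fun v : ℝ =>
      Complex.exp (↑(-2 * Real.pi * v * x) * Complex.I) • ek t v), h]
    · simp
    · intro v hv
      simp only [ek, smul_eq_mul]
      rw [← Complex.exp_add, abs_of_pos hv]
      congr 1
      push_cast; ring
  rw [e1, e2, pk]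
  have hI := Complex.I_sq
  have n1 : (t : ℂ) - x * Complex.I ≠ 0 := by
    intro h
    have := congrArg Complex.re h
    simp at this
    exact ht.ne' this
  have n2 : (t : ℂ) + x * Complex.I ≠ 0 := by
    intro h
    have := congrArg Complex.re h
    simp at this
    exact ht.ne' this
  have hpi' : (Real.pi : ℂ) ≠ 0 := by exact_mod_cast hpi.ne'
  have n3 : ((x : ℂ) ^ 2 + t ^ 2) = (t - x * Complex.I) * (t + x * Complex.I) := by
    linear_combination (x : ℂ) ^ 2 * hI
  push_cast
  rw [n3]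
  field_simp
  ring

lemma pk_int {t : ℝ} (ht : 0 < t) : Integrable (pk t) := by
  have h1 : (pk t) = fun y => (Real.pi * t)⁻¹ * (1 + (t⁻¹ * y) ^ 2)⁻¹ := by
    ext y
    have : 0 < y ^ 2 + t ^ 2 := by positivity
    have : 0 < 1 + (t⁻¹ * y) ^ 2 := by positivity
    have := Real.pi_pos
    rw [pk]
    field_simp
    ring
  rw [h1]
  exact (integrable_inv_one_add_sq.comp_mul_left' (inv_ne_zero ht.ne')).const_mul _

lemma pk_ex {t : ℝ} (ht : 0 < t) (ξ : ℝ) :
    ∫ s : ℝ, ex s ξ * (pk t s : ℂ) = ek t ξ := by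
  have hF : Integrable (𝓕 (ek t)) := by
    have : 𝓕 (ek t) = fun x => (pk t x : ℂ) := funext (ek_fourier ht)
    rw [this]
    exact (pk_int ht).ofReal
  have h := congrFun ((ek_cont t).fourierInv_fourier_eq (ek_int ht) hF) ξ
  rw [← h, Real.fourierInv_eq']
  refine integral_congr_ae ?_
  filter_upwards with s
  rw [ek_fourier ht, smul_eq_mul, ex]
  congr 3
  simp
  ring

lemma PE_ex {z : ℂ} (hz : 0 < z.im) {ξ : ℝ} (hξ : 0 ≤ ξ) :
    ∫ y : ℝ, ((z.im / (Real.pi * ((z.re - y) ^ 2 + z.im ^ 2)) : ℝ) : ℂ) * ex y ξ =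
      Complex.exp (2 * Real.pi * Complex.I * ξ * z) := by
  have h1 : (fun y : ℝ => ((z.im / (Real.pi * ((z.re - y) ^ 2 + z.im ^ 2)) : ℝ) : ℂ) * ex y ξ) =
      fun y : ℝ => (fun s : ℝ => ex z.re ξ * (ex s ξ * (pk z.im s : ℂ))) (y - z.re) := by
    funext y
    simp only [pk]
    have e1 : ex y ξ = ex z.re ξ * ex (y - z.re) ξ := by
      rw [ex, ex, ex, ← Complex.exp_add]
      congr 1
      push_cast; ring
    have e2 : (z.re - y) ^ 2 = (y - z.re) ^ 2 := by ring
    rw [e1, e2]
    ring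
  rw [h1, integral_sub_right_eq_self (fun s : ℝ => ex z.re ξ * (ex s ξ * (pk z.im s : ℂ))),
    integral_const_mul, pk_ex hz, ek, ex, ← Complex.exp_add, abs_of_nonneg hξ]
  congr 1
  have hI := Complex.I_sq
  conv_rhs => rw [← Complex.re_add_im z]
  push_cast
  linear_combination -(2 * Real.pi * (ξ : ℂ) * z.im) * hI

lemma PE_eq {a g : ℝ → ℂ} (ha : Integrable a) (h0 : ∀ ξ < 0, a ξ = 0)
    (hg : ∀ x, g x = ∫ ξ, a ξ * ex x ξ) {z : ℂ} (hz : 0 < z.im) :
    PE g z = ∫ ξ : ℝ, a ξ * Complex.exp (2 * Real.pi * Complex.I * ξ * z) := by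
  have hP : Integrable (fun y : ℝ => ((z.im / (Real.pi * ((z.re - y) ^ 2 + z.im ^ 2)) : ℝ) : ℂ)) := by
    have h1 := ((pk_int hz).comp_sub_right z.re).ofReal (𝕜 := ℂ)
    refine h1.congr ?_
    filter_upwards with y
    simp only [pk]
    congr 4
    ring
  have hprod : Integrable (fun p : ℝ × ℝ =>
      ((z.im / (Real.pi * ((z.re - p.1) ^ 2 + z.im ^ 2)) : ℝ) : ℂ) * (a p.2 * ex p.1 p.2))
      (volume.prod volume) := by
    have h1 := hP.mul_prod ha
    refine h1.mono ?_ ?_
    · have h2 := h1.aestronglyMeasurable.mul (cont_ex.aestronglyMeasurable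
        (μ := (volume : Measure ℝ).prod (volume : Measure ℝ)))
      refine h2.congr ?_
      filter_upwards with p
      simp only [Pi.mul_apply]
      ring
    · filter_upwards with p
      rw [norm_mul, norm_mul, norm_ex, mul_one, norm_mul]
  rw [PE]
  have e1 : (fun y : ℝ => ((z.im / (Real.pi * ((z.re - y) ^ 2 + z.im ^ 2)) : ℝ) : ℂ) * g y) =
      fun y : ℝ => ∫ ξ : ℝ, ((z.im / (Real.pi * ((z.re - y) ^ 2 + z.im ^ 2)) : ℝ) : ℂ) *
        (a ξ * ex y ξ) := by
    funext y
    rw [hg y, integral_const_mul]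
  rw [e1, integral_integral_swap hprod]
  refine integral_congr_ae ?_
  filter_upwards with ξ
  by_cases hξ : 0 ≤ ξ
  · rw [← PE_ex hz hξ, ← integral_const_mul]
    refine integral_congr_ae (Eventually.of_forall fun y => ?_)
    show _ * (a ξ * ex y ξ) = a ξ * (_ * ex y ξ)
    ring
  · rw [h0 ξ (not_le.1 hξ)]
    simp

lemma PE_diff {a g : ℝ → ℂ} (ha : Integrable a) (h0 : ∀ ξ < 0, a ξ = 0)
    (hg : ∀ x, g x = ∫ ξ, a ξ * ex x ξ) : DifferentiableOn ℂ (PE g) {z : ℂ | 0 < z.im} := by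
  have hpi := Real.pi_pos
  have hopen : IsOpen {z : ℂ | 0 < z.im} := isOpen_lt continuous_const Complex.continuous_im
  intro z0 hz0
  have hz0' : 0 < z0.im := hz0
  set t0 := z0.im with ht0
  have hev : PE g =ᶠ[𝓝 z0] fun z => ∫ ξ : ℝ, a ξ * Complex.exp (2 * Real.pi * Complex.I * ξ * z) := by
    filter_upwards [hopen.mem_nhds hz0] with z hz
    exact PE_eq ha h0 hg hz
  have hnorm : ∀ (ξ : ℝ) (z : ℂ), ‖Complex.exp (2 * Real.pi * Complex.I * ξ * z)‖ =
      Real.exp (-(2 * Real.pi * ξ * z.im)) := by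
    intro ξ z
    rw [Complex.norm_exp]
    congr 1
    simp
  have hmain := hasDerivAt_integral_of_dominated_loc_of_deriv_le (𝕜 := ℂ)
    (μ := (volume : Measure ℝ)) (x₀ := z0) (s := Metric.ball z0 (t0 / 2))
    (F := fun (z : ℂ) (ξ : ℝ) => a ξ * Complex.exp (2 * Real.pi * Complex.I * ξ * z))
    (F' := fun (z : ℂ) (ξ : ℝ) => a ξ * (Complex.exp (2 * Real.pi * Complex.I * ξ * z) *
      (2 * Real.pi * Complex.I * ξ)))
    (bound := fun ξ => ‖a ξ‖ * (2 / t0)) (Metric.ball_mem_nhds _ (by linarith)) ?_ ?_ ?_ ?_ ?_ ?_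
  · exact (hev.differentiableAt_iff.2 hmain.2.differentiableAt).differentiableWithinAt
  · filter_upwards with z
    exact ha.aestronglyMeasurable.mul (Continuous.aestronglyMeasurable (by fun_prop))
  · refine ha.mono (ha.aestronglyMeasurable.mul (Continuous.aestronglyMeasurable (by fun_prop))) ?_
    filter_upwards with ξ
    rw [norm_mul, hnorm]
    by_cases hξ : 0 ≤ ξ
    · have h1 : Real.exp (-(2 * Real.pi * ξ * z0.im)) ≤ 1 := by
        rw [Real.exp_le_one_iff]
        have : 0 ≤ 2 * Real.pi * ξ * z0.im := by positivity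
        linarith
      exact mul_le_of_le_one_right (norm_nonneg _) h1
    · rw [h0 ξ (not_le.1 hξ)]; simp
  · exact ha.aestronglyMeasurable.mul (Continuous.aestronglyMeasurable (by fun_prop))
  · filter_upwards with ξ z hz
    have him : t0 / 2 < z.im := by
      have h1 : ‖z - z0‖ < t0 / 2 := by rwa [← dist_eq_norm]
      have h2 := (Complex.abs_im_le_norm (z - z0)).trans_lt h1
      rw [Complex.sub_im, abs_lt] at h2
      linarith [h2.1]
    by_cases hξ : 0 ≤ ξ
    · rw [norm_mul]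
      refine mul_le_mul_of_nonneg_left ?_ (norm_nonneg _)
      rw [norm_mul, hnorm]
      have h3 : ‖(2 * Real.pi * Complex.I * ξ : ℂ)‖ = 2 * Real.pi * ξ := by
        simp [abs_of_pos hpi, abs_of_nonneg hξ]
      rw [h3]
      have h4 : Real.exp (-(2 * Real.pi * ξ * z.im)) ≤ Real.exp (-(Real.pi * ξ * t0)) := by
        apply Real.exp_le_exp.2
        have : 0 ≤ 2 * Real.pi * ξ := by positivity
        nlinarith
      have h5 : Real.pi * ξ * t0 * Real.exp (-(Real.pi * ξ * t0)) ≤ 1 := by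
        rw [Real.exp_neg, ← div_eq_mul_inv, div_le_one (Real.exp_pos _)]
        linarith [Real.add_one_le_exp (Real.pi * ξ * t0)]
      calc Real.exp (-(2 * Real.pi * ξ * z.im)) * (2 * Real.pi * ξ)
          ≤ Real.exp (-(Real.pi * ξ * t0)) * (2 * Real.pi * ξ) :=
            mul_le_mul_of_nonneg_right h4 (by positivity)
        _ = (2 / t0) * (Real.pi * ξ * t0 * Real.exp (-(Real.pi * ξ * t0))) := by
            field_simp
        _ ≤ (2 / t0) * 1 := mul_le_mul_of_nonneg_left h5 (by positivity)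
        _ = 2 / t0 := mul_one _
    · rw [h0 ξ (not_le.1 hξ)]; simp
  · exact ha.norm.mul_const _
  · filter_upwards with ξ z _
    have h1 : HasDerivAt (fun z : ℂ => 2 * Real.pi * Complex.I * ξ * z)
        (2 * Real.pi * Complex.I * ξ) z := by
      simpa using (hasDerivAt_id z).const_mul (2 * Real.pi * Complex.I * (ξ : ℂ))
    exact (h1.cexp).const_mul (a ξ)

lemma hp {g : ℝ → ℂ} {N : ℝ} (h : HP g N) : IsBMOA g ∧ bmo g ≤ ENNReal.ofReal (2 * N) := by
  obtain ⟨a, ha, h0, hN, hg⟩ := h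
  have hc : Continuous g := by
    have : g = fun x => ∫ ξ, a ξ * ex x ξ := funext hg
    rw [this]; exact cont_of ha
  have hb : ∀ x, ‖g x‖ ≤ N := fun x => by rw [hg]; exact norm_of hN x
  obtain ⟨h1, h2⟩ := bdd_bmo hc hb
  exact ⟨⟨h1, PE_diff ha h0 hg⟩, h2⟩

theorem t_HB : S_HB := by
  refine ⟨fun g N h => hp h, fun g N h => ?_⟩
  obtain ⟨a, ha, h0, hN, hg⟩ := h
  have hc : Continuous g := by
    have : g = fun x => ∫ ξ, a ξ * ex x ξ := funext hg
    rw [this]; exact cont_of ha
  have hb : ∀ x, ‖g x‖ ≤ N := fun x => by rw [hg]; exact norm_of hN x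
  obtain ⟨h1, h2⟩ := bdd_bmo hc hb
  refine ⟨(hp (N := N) ⟨fun ξ => starRingEnd ℂ (a (-ξ)), ?_, ?_, ?_, ?_⟩).1, h1, h2⟩
  · have h3 : Integrable (fun ξ => a (-ξ)) := ha.comp_neg
    exact (Complex.conjCLE : ℂ →L[ℝ] ℂ).integrable_comp h3
  · intro ξ hξ
    show starRingEnd ℂ (a (-ξ)) = 0
    rw [h0 (-ξ) (by linarith)]
    simp
  · have h3 : ∫ ξ, ‖starRingEnd ℂ (a (-ξ))‖ = ∫ ξ, ‖a (-ξ)‖ := by
      refine integral_congr_ae ?_
      filter_upwards with ξ
      exact RCLike.norm_conj _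
    rw [h3, integral_neg_eq_self (fun ξ => ‖a ξ‖) volume]
    exact hN
  · intro x
    rw [hg x, ← integral_conj, ← integral_neg_eq_self (fun ξ => starRingEnd ℂ (a ξ * ex x ξ)) volume]
    refine integral_congr_ae ?_
    filter_upwards with ξ
    rw [map_mul]
    congr 1
    rw [ex, ex, ← Complex.exp_conj]
    congr 1
    rw [map_mul, Complex.conj_ofReal, Complex.conj_I]
    push_cast
    ring

end Pool.Agent.Y257.PL
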