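import Pool.Agent.Y290.PL.Stm

set_option autoImplicit false

open Set Topology Filter MeasureTheory
open scoped FourierTransform ENNReal ContDiff

namespace Pool.Agent.Y257.PL
open Pool.Agent.Y290.PL

/-- the exponential `exp(-i Ψ)` -/
noncomputable def en (t : ℝ) : ℂ := Complex.exp (((-t : ℝ) : ℂ) * Complex.I)

lemma norm_en (t : ℝ) : ‖en t‖ = 1 := Complex.norm_exp_ofReal_mul_I _

lemma en_cont : Continuous en := by unfold en; fun_prop

lemma en_deriv {Ψ : ℝ → ℝ} {p v : ℝ} (h : HasDerivAt Ψ p v) :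
    HasDerivAt (fun v => en (Ψ v)) (en (Ψ v) * (-(p : ℂ) * Complex.I)) v := by
  have h1 : HasDerivAt (fun v => ((-(Ψ v) : ℝ) : ℂ) * Complex.I) (((-p : ℝ) : ℂ) * Complex.I) v :=
    (h.neg.ofReal_comp).mul_const Complex.I
  have h2 := h1.cexp
  simpa [en] using h2

/-- integration by parts -/
lemma ibp {Ψ p : ℝ → ℝ} {u w : ℝ → ℂ} {a b : ℝ} (hΨ : ∀ v, HasDerivAt Ψ (p v) v)
    (hp : ∀ v ∈ uIcc a b, p v ≠ 0) (hw : ∀ v ∈ uIcc a b, HasDerivAt (fun v => u v / (p v : ℂ)) (w v) v)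
    (hu : ContinuousOn u (uIcc a b)) (hwc : ContinuousOn w (uIcc a b)) (ha : u a = 0) (hb : u b = 0) :
    ‖∫ v in a..b, u v * en (Ψ v)‖ = ‖∫ v in a..b, w v * en (Ψ v)‖ := by
  have hΨc : Continuous Ψ := continuous_iff_continuousAt.2 fun v => (hΨ v).continuousAt
  have hec : ContinuousOn (fun v => en (Ψ v)) (uIcc a b) := (en_cont.comp hΨc).continuousOn
  have h1 : ∀ v ∈ uIcc a b, HasDerivAt (fun v => u v / (p v : ℂ) * en (Ψ v))
      (w v * en (Ψ v) - Complex.I * (u v * en (Ψ v))) v := by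
    intro v hv
    have h2 := (hw v hv).mul (en_deriv (hΨ v))
    refine h2.congr_deriv ?_
    have h3 : (p v : ℂ) ≠ 0 := by exact_mod_cast hp v hv
    field_simp
    ring
  have hi1 : IntervalIntegrable (fun v => w v * en (Ψ v)) volume a b :=
    (hwc.mul hec).intervalIntegrable
  have hi2 : IntervalIntegrable (fun v => u v * en (Ψ v)) volume a b :=
    (hu.mul hec).intervalIntegrable
  have h4 := intervalIntegral.integral_eq_sub_of_hasDerivAt h1 (hi1.sub (hi2.const_mul _))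
  rw [intervalIntegral.integral_sub hi1 (hi2.const_mul _), intervalIntegral.integral_const_mul,
    ha, hb] at h4
  have h5 : ∫ v in a..b, w v * en (Ψ v) = Complex.I * ∫ v in a..b, u v * en (Ψ v) := by
    simp only [zero_div, zero_mul, sub_zero] at h4
    exact sub_eq_zero.1 h4
  rw [h5, norm_mul, Complex.norm_I, one_mul]

lemma smooth_deriv {E : Type} [NormedAddCommGroup E] [NormedSpace ℝ E] {f : ℝ → E}
    (h : ContDiff ℝ ∞ f) :
    (∀ v, HasDerivAt f (deriv f v) v) ∧ ContDiff ℝ ∞ (deriv f) := by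
  rw [contDiff_infty_iff_deriv] at h
  exact ⟨fun v => (h.1 v).hasDerivAt, h.2⟩

lemma bound_on {E : Type} [NormedAddCommGroup E] {f : ℝ → E} (h : Continuous f) :
    ∃ C : ℝ, 0 ≤ C ∧ ∀ v ∈ Icc (-1 : ℝ) 2, ‖f v‖ ≤ C := by
  obtain ⟨C, hC⟩ := isCompact_Icc.exists_bound_of_continuousOn (f := f) (s := Icc (-1 : ℝ) 2)
    h.continuousOn
  exact ⟨max C 0, le_max_right _ _, fun v hv => (hC v hv).trans (le_max_left _ _)⟩

/-- the oscillating integral -/
noncomputable def osci (h : ℝ → ℝ) (d : ℝ → ℂ) (μ ξ : ℝ) : ℂ :=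
  ∫ v : ℝ, d v * en (μ * h v + 2 * Real.pi * ξ * v)

lemma alg (P P1 P2 d d1 d2 : ℂ) (hP : P ≠ 0) :
    (((d2 * P + d1 * P1 - (d1 * P1 + d * P2)) * P ^ 2 - (d1 * P - d * P1) * (2 * P * P1)) /
      (P ^ 2) ^ 2 * P - (d1 * P - d * P1) / P ^ 2 * P1) / P ^ 2 =
      ((d2 * P - d * P2) * P - 3 * (d1 * P - d * P1) * P1) / P ^ 4 := by
  field_simp
  ring

lemma osci_le {h : ℝ → ℝ} {d : ℝ → ℂ} (hh : Dif h) (hd : S01 d) :
    ∃ C : ℝ, 0 ≤ C ∧ ∀ μ ξ : ℝ, 0 < μ → 0 < ξ → ‖osci h d μ ξ‖ ≤ C / (μ + ξ) ^ 2 := by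
  obtain ⟨h1, s1⟩ := smooth_deriv hh.s
  obtain ⟨h2, s2⟩ := smooth_deriv s1
  obtain ⟨h3, s3⟩ := smooth_deriv s2
  obtain ⟨d1, t1⟩ := smooth_deriv hd.s
  obtain ⟨d2, t2⟩ := smooth_deriv t1
  obtain ⟨M1, m1, hM1⟩ := bound_on s1.continuous
  obtain ⟨M2, m2, hM2⟩ := bound_on s2.continuous
  obtain ⟨M3, m3, hM3⟩ := bound_on s3.continuous
  obtain ⟨D0, n0, hD0⟩ := bound_on hd.s.continuous
  obtain ⟨D1, n1, hD1⟩ := bound_on t1.continuous
  obtain ⟨D2, n2, hD2⟩ := bound_on t2.continuous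
  set M : ℝ := M1 + M2 + M3 + 2 * Real.pi with hM
  set D : ℝ := D0 + D1 + D2 with hD
  have hpi := Real.pi_gt_three
  have hM0 : 0 < M := by rw [hM]; linarith
  have hD0' : 0 ≤ D := by positivity
  obtain ⟨c, hc0, hc1, hc⟩ : ∃ c : ℝ, 0 < c ∧ c ≤ 1 ∧ ∀ v ∈ Icc (-1 : ℝ) 2, c ≤ deriv h v := by
    obtain ⟨v0, hv0, hmin⟩ := isCompact_Icc.exists_isMinOn (s := Icc (-1 : ℝ) 2)
      ⟨0, by norm_num⟩ s1.continuous.continuousOn
    refine ⟨min (deriv h v0) 1, lt_min (hh.d v0) one_pos, min_le_right _ _, fun v hv => ?_⟩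
    exact (min_le_left _ _).trans (hmin hv)
  refine ⟨24 * D * M ^ 2 / c ^ 4, by positivity, fun μ ξ hμ hξ => ?_⟩
  set m : ℝ := μ + ξ with hm
  have hm0 : 0 < m := by positivity
  set Ψ : ℝ → ℝ := fun v => μ * h v + 2 * Real.pi * ξ * v with hΨ
  set p : ℝ → ℝ := fun v => μ * deriv h v + 2 * Real.pi * ξ with hp
  set p1 : ℝ → ℝ := fun v => μ * deriv (deriv h) v with hp1
  set p2 : ℝ → ℝ := fun v => μ * deriv (deriv (deriv h)) v with hp2
  have hΨd : ∀ v, HasDerivAt Ψ (p v) v := by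
    intro v
    have e1 := ((h1 v).const_mul μ).fun_add ((hasDerivAt_id' v).const_mul (2 * Real.pi * ξ))
    rw [mul_one] at e1
    exact e1
  have hpd : ∀ v, HasDerivAt p (p1 v) v := by
    intro v
    simpa [hp, hp1] using ((h2 v).const_mul μ).add_const (2 * Real.pi * ξ)
  have hp1d : ∀ v, HasDerivAt p1 (p2 v) v := by
    intro v
    simpa [hp1, hp2] using (h3 v).const_mul μ
  have hIcc : uIcc (-1 : ℝ) 2 = Icc (-1) 2 := uIcc_of_le (by norm_num)
  have hplow : ∀ v ∈ Icc (-1 : ℝ) 2, c * m ≤ p v := by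
    intro v hv
    have e1 := hc v hv
    have e2 : μ * c ≤ μ * deriv h v := mul_le_mul_of_nonneg_left e1 hμ.le
    have e3 : ξ * c ≤ 2 * Real.pi * ξ := by nlinarith
    simp only [hp, hm]
    linarith
  have hp0 : ∀ v ∈ Icc (-1 : ℝ) 2, p v ≠ 0 := fun v hv =>
    (lt_of_lt_of_le (by positivity) (hplow v hv)).ne'
  have hμm : μ ≤ m := by rw [hm]; linarith
  have hξm : ξ ≤ m := by rw [hm]; linarith
  have hpb : ∀ v ∈ Icc (-1 : ℝ) 2, |p v| ≤ M * m := by
    intro v hv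
    have e1 := hM1 v hv
    rw [Real.norm_eq_abs] at e1
    have e2 : |p v| ≤ μ * M1 + 2 * Real.pi * ξ := by
      simp only [hp]
      refine (abs_add_le _ _).trans ?_
      rw [abs_mul, abs_of_pos hμ, abs_of_pos (by positivity : 0 < 2 * Real.pi * ξ)]
      gcongr
    refine e2.trans ?_
    have e3 : μ * M1 ≤ m * M1 := mul_le_mul_of_nonneg_right hμm m1
    have e4 : 2 * Real.pi * ξ ≤ 2 * Real.pi * m := mul_le_mul_of_nonneg_left hξm (by positivity)
    have e5 : M * m = m * M1 + 2 * Real.pi * m + (M2 + M3) * m := by rw [hM]; ring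
    rw [e5]
    have : 0 ≤ (M2 + M3) * m := by positivity
    linarith
  have hp1b : ∀ v ∈ Icc (-1 : ℝ) 2, |p1 v| ≤ M * m := by
    intro v hv
    have e1 := hM2 v hv
    rw [Real.norm_eq_abs] at e1
    simp only [hp1]
    rw [abs_mul, abs_of_pos hμ]
    calc μ * |deriv (deriv h) v| ≤ m * M := by
          refine mul_le_mul hμm (e1.trans ?_) (abs_nonneg _) hm0.le
          rw [hM]; linarith
      _ = M * m := mul_comm _ _
  have hp2b : ∀ v ∈ Icc (-1 : ℝ) 2, |p2 v| ≤ M * m := by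
    intro v hv
    have e1 := hM3 v hv
    rw [Real.norm_eq_abs] at e1
    simp only [hp2]
    rw [abs_mul, abs_of_pos hμ]
    calc μ * |deriv (deriv (deriv h)) v| ≤ m * M := by
          refine mul_le_mul hμm (e1.trans ?_) (abs_nonneg _) hm0.le
          rw [hM]; linarith
      _ = M * m := mul_comm _ _
  -- the functions after integration by parts
  set w1 : ℝ → ℂ := fun v => (deriv d v * (p v : ℂ) - d v * (p1 v : ℂ)) / (p v : ℂ) ^ 2 with hw1
  set w2 : ℝ → ℂ := fun v => ((deriv (deriv d) v * (p v : ℂ) - d v * (p2 v : ℂ)) * (p v : ℂ) -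
    3 * (deriv d v * (p v : ℂ) - d v * (p1 v : ℂ)) * (p1 v : ℂ)) / (p v : ℂ) ^ 4 with hw2
  have hc0' : ∀ v ∈ Icc (-1 : ℝ) 2, (p v : ℂ) ≠ 0 := fun v hv => by exact_mod_cast hp0 v hv
  have hpc : ∀ v, HasDerivAt (fun v => (p v : ℂ)) (p1 v : ℂ) v := fun v => (hpd v).ofReal_comp
  have hp1c : ∀ v, HasDerivAt (fun v => (p1 v : ℂ)) (p2 v : ℂ) v := fun v => (hp1d v).ofReal_comp
  have hW1 : ∀ v ∈ Icc (-1 : ℝ) 2, HasDerivAt (fun v => d v / (p v : ℂ)) (w1 v) v := by
    intro v hv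
    exact (d1 v).div (hpc v) (hc0' v hv)
  have hW2 : ∀ v ∈ Icc (-1 : ℝ) 2, HasDerivAt (fun v => w1 v / (p v : ℂ)) (w2 v) v := by
    intro v hv
    have e1 : HasDerivAt (fun v => deriv d v * (p v : ℂ) - d v * (p1 v : ℂ))
        ((deriv (deriv d) v * (p v : ℂ) + deriv d v * (p1 v : ℂ)) -
          (deriv d v * (p1 v : ℂ) + d v * (p2 v : ℂ))) v :=
      ((d2 v).mul (hpc v)).sub ((d1 v).mul (hp1c v))
    have e2 : HasDerivAt (fun v => (p v : ℂ) ^ 2) (2 * (p v : ℂ) * (p1 v : ℂ)) v := by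
      simpa using (hpc v).fun_pow 2
    have e3 := (e1.div e2 (pow_ne_zero 2 (hc0' v hv))).div (hpc v) (hc0' v hv)
    refine e3.congr_deriv ?_
    exact alg _ _ _ _ _ _ (hc0' v hv)
  have c0 : Continuous fun v => (p v : ℂ) := continuous_iff_continuousAt.2 fun v => (hpc v).continuousAt
  have c1 : Continuous fun v => (p1 v : ℂ) := continuous_iff_continuousAt.2 fun v => (hp1c v).continuousAt
  have c2 : Continuous fun v => (p2 v : ℂ) :=
    Complex.continuous_ofReal.comp (continuous_const.mul s3.continuous)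
  have k0 := hd.s.continuous
  have k1 := t1.continuous
  have k2 := t2.continuous
  have hw1c : ContinuousOn w1 (Icc (-1) 2) :=
    ContinuousOn.div ((k1.mul c0).sub (k0.mul c1)).continuousOn (c0.pow 2).continuousOn
      fun v hv => pow_ne_zero 2 (hc0' v hv)
  have hw2c : ContinuousOn w2 (Icc (-1) 2) :=
    ContinuousOn.div ((((k2.mul c0).sub (k0.mul c2)).mul c0).sub
      ((continuous_const.mul ((k1.mul c0).sub (k0.mul c1))).mul c1)).continuousOn
      (c0.pow 4).continuousOn fun v hv => pow_ne_zero 4 (hc0' v hv)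
  have hoff : ∀ v, v ∉ Icc (0 : ℝ) 1 → deriv d v = 0 := by
    intro v hv
    have e1 : d =ᶠ[𝓝 v] fun _ => 0 := by
      filter_upwards [isClosed_Icc.isOpen_compl.mem_nhds hv] with x hx
      exact hd.o x hx
    rw [e1.deriv_eq]; simp
  have a1 : (-1 : ℝ) ∉ Icc (0 : ℝ) 1 := by norm_num
  have a2 : (2 : ℝ) ∉ Icc (0 : ℝ) 1 := by norm_num
  have step1 := ibp (a := -1) (b := 2) hΨd (by rwa [hIcc]) (by rwa [hIcc]) (k0.continuousOn)
    (by rwa [hIcc]) (hd.o _ a1) (hd.o _ a2)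
  have step2 := ibp (a := -1) (b := 2) hΨd (by rwa [hIcc]) (by rwa [hIcc]) (by rwa [hIcc])
    (by rwa [hIcc]) (u := w1) (w := w2) (by simp [hw1, hoff _ a1, hd.o _ a1])
    (by simp [hw1, hoff _ a2, hd.o _ a2])
  have hsupp : osci h d μ ξ = ∫ v in (-1 : ℝ)..2, d v * en (Ψ v) := by
    rw [osci, ← intervalIntegral.integral_eq_integral_of_support_subset]
    intro v hv
    by_contra hv'
    apply hv
    have : v ∉ Icc (0 : ℝ) 1 := fun h => hv' ⟨by linarith [h.1], by linarith [h.2]⟩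
    simp [hd.o v this]
  rw [hsupp, step1, step2]
  have hw2b : ∀ v ∈ Icc (-1 : ℝ) 2, ‖w2 v‖ ≤ 8 * D * M ^ 2 / (c ^ 4 * m ^ 2) := by
    intro v hv
    have b0 : ‖d v‖ ≤ D := (hD0 v hv).trans (by rw [hD]; linarith)
    have b1 : ‖deriv d v‖ ≤ D := (hD1 v hv).trans (by rw [hD]; linarith)
    have b2 : ‖deriv (deriv d) v‖ ≤ D := (hD2 v hv).trans (by rw [hD]; linarith)
    have q0 : ‖(p v : ℂ)‖ ≤ M * m := by rw [Complex.norm_real]; exact hpb v hv
    have q1 : ‖(p1 v : ℂ)‖ ≤ M * m := by rw [Complex.norm_real]; exact hp1b v hv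
    have q2 : ‖(p2 v : ℂ)‖ ≤ M * m := by rw [Complex.norm_real]; exact hp2b v hv
    have hMm : 0 ≤ M * m := by positivity
    have r1 : ‖deriv (deriv d) v * (p v : ℂ) - d v * (p2 v : ℂ)‖ ≤ 2 * (D * (M * m)) := by
      refine (norm_sub_le _ _).trans ?_
      rw [norm_mul, norm_mul]
      have := mul_le_mul b2 q0 (norm_nonneg _) hD0'
      have := mul_le_mul b0 q2 (norm_nonneg _) hD0'
      linarith
    have r2 : ‖deriv d v * (p v : ℂ) - d v * (p1 v : ℂ)‖ ≤ 2 * (D * (M * m)) := by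
      refine (norm_sub_le _ _).trans ?_
      rw [norm_mul, norm_mul]
      have := mul_le_mul b1 q0 (norm_nonneg _) hD0'
      have := mul_le_mul b0 q1 (norm_nonneg _) hD0'
      linarith
    have hnum : ‖(deriv (deriv d) v * (p v : ℂ) - d v * (p2 v : ℂ)) * (p v : ℂ) -
        3 * (deriv d v * (p v : ℂ) - d v * (p1 v : ℂ)) * (p1 v : ℂ)‖ ≤ 8 * D * (M * m) ^ 2 := by
      refine (norm_sub_le _ _).trans ?_
      rw [norm_mul, norm_mul, norm_mul]
      have z1 := mul_le_mul r1 q0 (norm_nonneg _) (by positivity)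
      have z2 := mul_le_mul r2 q1 (norm_nonneg _) (by positivity)
      have z3 : ‖(3 : ℂ)‖ = 3 := by simp
      rw [z3]
      nlinarith
    have hden : (c * m) ^ 4 ≤ ‖(p v : ℂ) ^ 4‖ := by
      rw [norm_pow, Complex.norm_real, Real.norm_eq_abs]
      refine pow_le_pow_left₀ (by positivity) ((hplow v hv).trans (le_abs_self _)) 4
    simp only [hw2]
    rw [norm_div]
    calc _ ≤ 8 * D * (M * m) ^ 2 / (c * m) ^ 4 :=
          div_le_div₀ (by positivity) hnum (by positivity) hden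
      _ = 8 * D * M ^ 2 / (c ^ 4 * m ^ 2) := by
          field_simp
  have hfin := intervalIntegral.norm_integral_le_of_norm_le_const (a := (-1 : ℝ)) (b := 2)
    (f := fun v => w2 v * en (Ψ v)) (C := 8 * D * M ^ 2 / (c ^ 4 * m ^ 2)) (fun v hv => by
      rw [norm_mul, norm_en, mul_one]
      rw [uIoc_of_le (by norm_num)] at hv
      exact hw2b v ⟨hv.1.le, hv.2⟩)
  refine hfin.trans (le_of_eq ?_)
  norm_num
  field_simp
  ring

lemma four_eq {h : ℝ → ℝ} {d B : ℝ → ℂ} {b : ℕ → ℂ} (hh : Dif h) (hd : S01 d) (hB : FB B b)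
    (lam ξ : ℝ) : HasSum (fun j : ℕ => b j * osci h d ((j + 1) * lam) ξ)
      (𝓕 (fun x => d x * B (lam * h x)) ξ) := by
  have hhc := hh.s.continuous
  have hdc := hd.s.continuous
  have hdi : Integrable d := by
    refine hdc.integrable_of_hasCompactSupport ?_
    exact HasCompactSupport.of_support_subset_isCompact isCompact_Icc (fun x hx => by
      by_contra h; exact hx (hd.o x h))
  have key : ∀ (j : ℕ) (v : ℝ), Complex.exp (↑(-2 * Real.pi * v * ξ) * Complex.I) •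
      (d v * (b j * ej (-(j + 1)) (lam * h v))) =
      b j * (d v * en (((j + 1) * lam) * h v + 2 * Real.pi * ξ * v)) := by
    intro j v
    rw [smul_eq_mul, ej, en]
    have : Complex.exp (↑(-2 * Real.pi * v * ξ) * Complex.I) *
        Complex.exp ((((-(j + 1) : ℤ) : ℝ) * (lam * h v) : ℝ) * Complex.I) =
        Complex.exp (((-(((j + 1) * lam) * h v + 2 * Real.pi * ξ * v) : ℝ) : ℂ) * Complex.I) := by
      rw [← Complex.exp_add]
      congr 1
      push_cast; ring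
    rw [← this]
    ring
  have hint : ∀ (j : ℕ), Integrable (fun v => b j * (d v * en (((j + 1) * lam) * h v +
      2 * Real.pi * ξ * v))) := by
    intro j
    refine (hdi.mono (hdi.aestronglyMeasurable.mul (Continuous.aestronglyMeasurable ?_)) ?_).const_mul _
    · exact en_cont.comp (by fun_prop)
    · filter_upwards with v
      show ‖d v * en _‖ ≤ ‖d v‖
      rw [norm_mul, norm_en, mul_one]
  have hsum := hasSum_integral_of_summable_integral_norm hint (by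
    have e1 : (fun j : ℕ => ∫ v, ‖b j * (d v * en (((j + 1) * lam) * h v + 2 * Real.pi * ξ * v))‖) =
        fun j => ‖b j‖ * ∫ v, ‖d v‖ := by
      funext j
      rw [← integral_const_mul]
      refine integral_congr_ae ?_
      filter_upwards with v
      rw [norm_mul, norm_mul, norm_en, mul_one]
    rw [e1]
    exact hB.sb.mul_right _)
  have e2 : ∀ j : ℕ, ∫ v, b j * (d v * en (((j + 1) * lam) * h v + 2 * Real.pi * ξ * v)) =
      b j * osci h d ((j + 1) * lam) ξ := by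
    intro j
    rw [integral_const_mul, osci]
  simp only [e2] at hsum
  rw [Real.fourier_real_eq_integral_exp_smul]
  have e3 : (∫ v : ℝ, Complex.exp (↑(-2 * Real.pi * v * ξ) * Complex.I) •
      (fun x => d x * B (lam * h x)) v) =
      ∫ v : ℝ, ∑' j : ℕ, b j * (d v * en (((j + 1) * lam) * h v + 2 * Real.pi * ξ * v)) := by
    refine integral_congr_ae (Eventually.of_forall fun v => ?_)
    show Complex.exp (↑(-2 * Real.pi * v * ξ) * Complex.I) • (d v * B (lam * h v)) =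
      ∑' j : ℕ, b j * (d v * en (((j + 1) * lam) * h v + 2 * Real.pi * ξ * v))
    rw [hB.eq]
    simp only [← key, smul_eq_mul]
    rw [tsum_mul_left, tsum_mul_left]
  rw [e3]
  exact hsum

lemma int_inv_sq {lam : ℝ} (h : 0 < lam) : IntegrableOn (fun ξ : ℝ => 1 / (lam + ξ) ^ 2) (Ioi 0) ∧
    ∫ ξ in Ioi (0 : ℝ), 1 / (lam + ξ) ^ 2 = 1 / lam := by
  have hd : ∀ ξ ∈ Ici (0 : ℝ), HasDerivAt (fun ξ : ℝ => -(lam + ξ)⁻¹) (1 / (lam + ξ) ^ 2) ξ := by
    intro ξ hξ
    have h0 : lam + ξ ≠ 0 := by have : (0 : ℝ) ≤ ξ := hξ; positivity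
    have h1 : HasDerivAt (fun ξ : ℝ => lam + ξ) 1 ξ := by simpa using (hasDerivAt_id ξ).const_add lam
    have h2 := (h1.inv h0).neg
    refine h2.congr_deriv ?_
    ring
  have hl : Tendsto (fun ξ : ℝ => -(lam + ξ)⁻¹) atTop (𝓝 0) := by
    have h1 : Tendsto (fun ξ : ℝ => lam + ξ) atTop atTop := tendsto_atTop_add_const_left _ _ tendsto_id
    simpa using (tendsto_inv_atTop_zero.comp h1).neg
  have hnn : ∀ ξ ∈ Ioi (0 : ℝ), 0 ≤ 1 / (lam + ξ) ^ 2 := fun ξ _ => by positivity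
  refine ⟨integrableOn_Ioi_deriv_of_nonneg' hd hnn hl, ?_⟩
  rw [integral_Ioi_of_hasDerivAt_of_nonneg' hd hnn hl]
  simp

theorem t_NSP : S_NSP := by
  intro h d B b hh hd hB ε hε
  obtain ⟨C, hC0, hC⟩ := osci_le hh hd
  set S : ℝ := ∑' j, ‖b j‖ with hS
  have hS0 : 0 ≤ S := tsum_nonneg fun j => norm_nonneg _
  refine ⟨max 1 (S * C / ε), fun lam hlam => ?_⟩
  have hl1 : 1 ≤ lam := (le_max_left _ _).trans hlam
  have hl2 : S * C / ε ≤ lam := (le_max_right _ _).trans hlam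
  have hl0 : 0 < lam := by linarith
  have hpt : ∀ ξ ∈ Ioi (0 : ℝ), ‖𝓕 (fun x => d x * B (lam * h x)) ξ‖ ≤ S * C * (1 / (lam + ξ) ^ 2) := by
    intro ξ hξ
    have hξ' : 0 < ξ := hξ
    have h1 := four_eq hh hd hB lam ξ
    rw [← h1.tsum_eq]
    have hb : ∀ j : ℕ, ‖b j * osci h d ((j + 1) * lam) ξ‖ ≤ ‖b j‖ * (C * (1 / (lam + ξ) ^ 2)) := by
      intro j
      rw [norm_mul]
      refine mul_le_mul_of_nonneg_left ?_ (norm_nonneg _)
      have hj : (0 : ℝ) ≤ j := Nat.cast_nonneg j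
      refine (hC ((j + 1) * lam) ξ (by positivity) hξ').trans ?_
      rw [div_eq_mul_one_div]
      refine mul_le_mul_of_nonneg_left ?_ hC0
      refine one_div_le_one_div_of_le (by positivity) ?_
      refine pow_le_pow_left₀ (by positivity) ?_ 2
      nlinarith
    have hs : Summable fun j : ℕ => ‖b j‖ * (C * (1 / (lam + ξ) ^ 2)) := hB.sb.mul_right _
    refine (tsum_of_norm_bounded hs.hasSum hb).trans (le_of_eq ?_)
    rw [tsum_mul_right, hS]
    ring
  obtain ⟨hi, hv⟩ := int_inv_sq hl0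
  rw [NP]
  calc ∫ ξ in Ioi (0 : ℝ), ‖𝓕 (fun x => d x * B (lam * h x)) ξ‖
      ≤ ∫ ξ in Ioi (0 : ℝ), S * C * (1 / (lam + ξ) ^ 2) := by
        refine integral_mono_of_nonneg (Eventually.of_forall fun ξ => norm_nonneg _)
          (hi.const_mul _) ?_
        exact (ae_restrict_iff' measurableSet_Ioi).2 (Eventually.of_forall hpt)
    _ = S * C * (1 / lam) := by rw [integral_const_mul, hv]
    _ ≤ ε := by
        rw [mul_one_div, div_le_iff₀ hl0]
        rw [div_le_iff₀ hε] at hl2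
        linarith

end Pool.Agent.Y257.PL
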